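import Pool.Agent.U798.BV.Spec
import Pool.Agent.U798.MN.D4
import Pool.Agent.U798.OP.A

/-! Project BV, package DAV (helper894): Davenport's estimate for the frequencies prime to `p q`. -/

set_option autoImplicit false

open Finset
open Pool.Agent.H807R2.Dav
open Pool.Agent.H373R2.T7 (muR muR_abs orth)
open Pool.Agent.U798.MN (saw wt dig ser tgt term ser_limit)
open Pool.Agent.U798.OP (saw_mult)
open scoped Real

namespace Pool.Agent.U894.BV

lemma sum_mult {M : Type*} [AddCommMonoid M] (d N : ℕ) (hd : 0 < d) (F : ℕ → M) :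
    ∑ m ∈ range (d * N), (if d ∣ m then F m else 0) = ∑ i ∈ range N, F (d * i) := by
  rw [← sum_filter]
  symm
  refine sum_nbij' (fun i => d * i) (fun m => m / d) ?_ ?_ ?_ ?_ ?_
  · intro i hi
    rw [mem_range] at hi
    rw [mem_filter, mem_range]
    exact ⟨Nat.mul_lt_mul_of_pos_left hi hd, dvd_mul_right _ _⟩
  · intro m hm
    rw [mem_filter, mem_range] at hm
    rw [mem_range]
    exact Nat.div_lt_of_lt_mul hm.1
  · intro i _
    exact Nat.mul_div_cancel_left i hd
  · intro m hm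
    rw [mem_filter] at hm
    exact Nat.mul_div_cancel' hm.2
  · intro i _
    rfl

variable {p q : ℕ}

lemma cop_iff (hp : p.Prime) (hq : q.Prime) (m : ℕ) :
    IsUnit ((m : ℕ) : ZMod (p * q)) ↔ ¬ p ∣ m ∧ ¬ q ∣ m := by
  rw [ZMod.isUnit_iff_coprime, Nat.coprime_mul_iff_right, Nat.coprime_comm,
    hp.coprime_iff_not_dvd, Nat.coprime_comm, hq.coprime_iff_not_dvd]

lemma chi_nat (hp : p.Prime) (hq : q.Prime) (hpq : p ≠ q) (m : ℕ) :
    (1 : DirichletCharacter ℂ (p * q)) (m : ZMod (p * q)) =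
      1 - (if p ∣ m then 1 else 0) - (if q ∣ m then 1 else 0) +
        (if p * q ∣ m then 1 else 0) := by
  have hcop : Nat.Coprime p q := (Nat.coprime_primes hp hq).2 hpq
  by_cases h1 : p ∣ m
  · rw [MulChar.map_nonunit _ (fun hu => ((cop_iff hp hq m).1 hu).1 h1), if_pos h1]
    by_cases h2 : q ∣ m
    · rw [if_pos h2, if_pos (hcop.mul_dvd_of_dvd_of_dvd h1 h2)]; ring
    · rw [if_neg h2, if_neg (fun h => h2 ((dvd_mul_left q p).trans h))]; ring
  · rw [if_neg h1, if_neg (c := p * q ∣ m) (fun h => h1 ((dvd_mul_right p q).trans h))]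
    by_cases h2 : q ∣ m
    · rw [MulChar.map_nonunit _ (fun hu => ((cop_iff hp hq m).1 hu).2 h2), if_pos h2]; ring
    · rw [MulChar.one_apply ((cop_iff hp hq m).2 ⟨h1, h2⟩), if_neg h2]; ring

lemma sum_ee (N : ℕ) (hN : 1 ≤ N) (j : ℕ) :
    ∑ i ∈ range N, ee (-((i : ℝ) * j / N)) = if N ∣ j then (N : ℂ) else 0 := by
  have h := orth N hN (-(j : ℤ))
  have e : ∀ i : ℕ, ee ((i : ℝ) * (((-(j : ℤ) : ℤ) : ℝ) / N)) = ee (-((i : ℝ) * j / N)) := by
    intro i
    congr 1
    push_cast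
    ring
  simp_rw [e] at h
  rw [h]
  have h2 : ((N : ℤ) ∣ -(j : ℤ)) ↔ N ∣ j := by
    rw [dvd_neg, Int.natCast_dvd_natCast]
  simp only [h2]

/-- the weights -/
noncomputable def wR (p q j : ℕ) : ℝ :=
  -((if p * q ∣ j then 1 else 0) - (1 / q) * (if p ∣ j then 1 else 0) -
    (1 / p) * (if q ∣ j then 1 else 0) + 1 / (p * q))

lemma wt_eq (hp : p.Prime) (hq : q.Prime) (hpq : p ≠ q) (j : ℕ) :
    wt (1 : DirichletCharacter ℂ (p * q)) j = ((wR p q j : ℝ) : ℂ) := by
  have hp0 : (p : ℂ) ≠ 0 := by exact_mod_cast hp.ne_zero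
  have hq0 : (q : ℂ) ≠ 0 := by exact_mod_cast hq.ne_zero
  have hp0' : (p : ℝ) ≠ 0 := by exact_mod_cast hp.ne_zero
  have hq0' : (q : ℝ) ≠ 0 := by exact_mod_cast hq.ne_zero
  unfold wt
  set E : ℕ → ℂ := fun m => ee (-((m : ℝ) * j / ((p * q : ℕ) : ℝ))) with hE
  have s0 : ∑ m ∈ range (p * q), (1 : DirichletCharacter ℂ (p * q)) (m : ZMod (p * q)) *
      ee (-((m : ℝ) * j / ((p * q : ℕ) : ℝ))) =
      ∑ m ∈ range (p * q), E m - ∑ m ∈ range (p * q), (if p ∣ m then E m else 0) -
        ∑ m ∈ range (p * q), (if q ∣ m then E m else 0) +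
        ∑ m ∈ range (p * q), (if p * q ∣ m then E m else 0) := by
    rw [← sum_sub_distrib, ← sum_sub_distrib, ← sum_add_distrib]
    refine sum_congr rfl fun m _ => ?_
    rw [chi_nat hp hq hpq]
    simp only [hE]
    split_ifs <;> ring
  have s1 : ∑ m ∈ range (p * q), E m = if p * q ∣ j then ((p * q : ℕ) : ℂ) else 0 :=
    sum_ee (p * q) (Nat.mul_pos hp.pos hq.pos) j
  have s2 : ∑ m ∈ range (p * q), (if p ∣ m then E m else 0) = if q ∣ j then (q : ℂ) else 0 := by
    rw [sum_mult p q hp.pos, ← sum_ee q hq.pos j]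
    refine sum_congr rfl fun i _ => ?_
    simp only [hE]
    congr 2
    push_cast
    field_simp
  have s3 : ∑ m ∈ range (p * q), (if q ∣ m then E m else 0) = if p ∣ j then (p : ℂ) else 0 := by
    rw [mul_comm p q, sum_mult q p hq.pos, ← sum_ee p hp.pos j]
    refine sum_congr rfl fun i _ => ?_
    simp only [hE]
    congr 2
    push_cast
    field_simp
  have s4 : ∑ m ∈ range (p * q), (if p * q ∣ m then E m else 0) = 1 := by
    have h := sum_mult (p * q) 1 (Nat.mul_pos hp.pos hq.pos) E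
    rw [mul_one] at h
    rw [h, sum_range_one, mul_zero]
    simp [hE, ee]
  rw [s0, s1, s2, s3, s4]
  unfold wR
  split_ifs <;> push_cast <;> field_simp <;> ring

lemma dig_eq (hp : p.Prime) (hq : q.Prime) (hpq : p ≠ q) (t : ℝ) :
    dig (1 : DirichletCharacter ℂ (p * q)) t = ((-Pool.Agent.U798.BV.V p q t : ℝ) : ℂ) := by
  have hp0' : (p : ℝ) ≠ 0 := by exact_mod_cast hp.ne_zero
  have hq0' : (q : ℝ) ≠ 0 := by exact_mod_cast hq.ne_zero
  unfold dig
  simp_rw [wt_eq hp hq hpq]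
  set G : ℕ → ℝ := fun j => saw (t + j / ((p * q : ℕ) : ℝ)) with hG
  have e0 : ∑ j ∈ range (p * q), ((wR p q j : ℝ) : ℂ) *
      ((saw (t + j / ((p * q : ℕ) : ℝ)) : ℝ) : ℂ) =
      ((∑ j ∈ range (p * q), wR p q j * G j : ℝ) : ℂ) := by
    rw [Complex.ofReal_sum]
    refine sum_congr rfl fun j _ => ?_
    rw [Complex.ofReal_mul]
  rw [e0]
  congr 1
  have e1 : ∑ j ∈ range (p * q), wR p q j * G j =
      -(∑ j ∈ range (p * q), (if p * q ∣ j then G j else 0) -
        (1 / q) * ∑ j ∈ range (p * q), (if p ∣ j then G j else 0) -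
        (1 / p) * ∑ j ∈ range (p * q), (if q ∣ j then G j else 0) +
        1 / (p * q) * ∑ j ∈ range (p * q), G j) := by
    rw [mul_sum, mul_sum, mul_sum, ← sum_sub_distrib, ← sum_sub_distrib, ← sum_add_distrib,
      ← sum_neg_distrib]
    refine sum_congr rfl fun j _ => ?_
    unfold wR
    split_ifs <;> ring
  have s1 : ∑ j ∈ range (p * q), (if p * q ∣ j then G j else 0) = saw t := by
    have h := sum_mult (p * q) 1 (Nat.mul_pos hp.pos hq.pos) G
    rw [mul_one] at h
    rw [h, sum_range_one, mul_zero]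
    simp [hG]
  have s2 : ∑ j ∈ range (p * q), (if p ∣ j then G j else 0) = saw (q * t) := by
    rw [sum_mult p q hp.pos, ← saw_mult q hq.pos t]
    refine sum_congr rfl fun i _ => ?_
    simp only [hG]
    congr 1
    push_cast
    field_simp
  have s3 : ∑ j ∈ range (p * q), (if q ∣ j then G j else 0) = saw (p * t) := by
    rw [mul_comm p q, sum_mult q p hq.pos, ← saw_mult p hp.pos t]
    refine sum_congr rfl fun i _ => ?_
    simp only [hG]
    congr 1
    push_cast
    field_simp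
  have s4 : ∑ j ∈ range (p * q), G j = saw (p * q * t) := by
    have h := saw_mult (p * q) (Nat.mul_pos hp.pos hq.pos) t
    simp only [hG]
    rw [h]
    push_cast
    rfl
  rw [e1, s1, s2, s3, s4]
  unfold Pool.Agent.U798.BV.V
  have hs : ∀ x : ℝ, Pool.Agent.U798.BV.sw x = saw x := fun x => rfl
  rw [hs, hs, hs, hs]
  ring

lemma tgt_eq (hp : p.Prime) (hq : q.Prime) (y : ℝ) :
    tgt (1 : DirichletCharacter ℂ (p * q)) y = ((Real.sin (2 * π * y) / π : ℝ) : ℂ) := by
  have hpi : (π : ℂ) ≠ 0 := by exact_mod_cast Real.pi_ne_zero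
  unfold tgt
  rw [MulChar.one_apply (isUnit_one.neg), one_mul]
  have h := Complex.two_sin ((2 * π * y : ℝ) : ℂ)
  have e1 : ee y = Complex.exp (((2 * π * y : ℝ) : ℂ) * Complex.I) := by
    unfold ee
    congr 1
    push_cast
    ring
  have e2 : ee (-y) = Complex.exp (-((2 * π * y : ℝ) : ℂ) * Complex.I) := by
    unfold ee
    congr 1
    push_cast
    ring
  rw [e1, e2]
  push_cast at h ⊢
  have h3 : Complex.exp (2 * π * y * Complex.I) - Complex.exp (-(2 * π * y) * Complex.I) =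
      2 * Complex.I * Complex.sin (2 * π * y) := by
    have h4 := congrArg (fun z => z * Complex.I) h
    have h5 : (Complex.exp (-(2 * π * y) * Complex.I) - Complex.exp (2 * π * y * Complex.I)) *
        Complex.I * Complex.I =
        Complex.exp (2 * π * y * Complex.I) - Complex.exp (-(2 * π * y) * Complex.I) := by
      rw [mul_assoc, Complex.I_mul_I]; ring
    rw [h5] at h4
    rw [← h4]; ring
  rw [h3]
  field_simp

theorem t_DAV : Pool.Agent.U798.BV.S_DAV := by
  intro p q hp hq hpq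
  obtain ⟨C, K0, _, hK0, h⟩ := ser_limit (b := p * q) (Nat.mul_pos hp.pos hq.pos)
    (1 : DirichletCharacter ℂ (p * q)) 0
  refine ⟨C, K0, hK0, fun K hK y hy => ?_⟩
  have h1 := h K hK y hy
  rw [zero_add, pow_one] at h1
  have e : tgt (1 : DirichletCharacter ℂ (p * q)) y - ser (1 : DirichletCharacter ℂ (p * q)) K y =
      (((∑ k ∈ (Finset.Icc 1 K).filter (fun k => ¬ p ∣ k ∧ ¬ q ∣ k),
      ((ArithmeticFunction.moebius k : ℤ) : ℝ) / k * Pool.Agent.U798.BV.V p q (k * y)) +
        Real.sin (2 * Real.pi * y) / Real.pi : ℝ) : ℂ) := by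
    rw [tgt_eq hp hq]
    have e1 : ser (1 : DirichletCharacter ℂ (p * q)) K y =
        -((∑ k ∈ (Finset.Icc 1 K).filter (fun k => ¬ p ∣ k ∧ ¬ q ∣ k),
          ((ArithmeticFunction.moebius k : ℤ) : ℝ) / k * Pool.Agent.U798.BV.V p q (k * y) : ℝ) : ℂ) := by
      unfold ser
      rw [sum_filter]
      push_cast
      rw [← sum_neg_distrib]
      refine sum_congr rfl fun k _ => ?_
      unfold term
      rw [dig_eq hp hq hpq]
      by_cases hk : ¬ p ∣ k ∧ ¬ q ∣ k
      · rw [if_pos hk, MulChar.one_apply ((cop_iff hp hq k).2 hk)]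
        unfold muR
        push_cast
        ring
      · rw [if_neg hk, MulChar.map_nonunit _ (fun hu => hk ((cop_iff hp hq k).1 hu))]
        simp
    rw [e1]
    push_cast
    ring
  rw [e, Complex.norm_real, Real.norm_eq_abs] at h1
  exact h1

end Pool.Agent.U894.BV
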